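import Mathlib

set_option autoImplicit false

namespace Pool.Agent.Results.MP_f5f603_al.TwoGood

open Equiv

/-- `op` is a quandle operation -/
def IsQuandle {R : Type} (op : R → R → R) : Prop :=
  (∀ x, op x x = x) ∧ (∀ y, Function.Bijective fun x => op x y) ∧
    ∀ x y w, op (op x y) w = op (op x w) (op y w)

/-- the group generated by the right translations acts transitively -/
def Connected {R : Type} (op : R → R → R) : Prop :=
  ∀ a b, ∃ g ∈ Subgroup.closure {σ : Perm R | ∃ y, ∀ x, σ x = op x y}, g a = b

/-- `ρ` is a good involution -/
def IsGood {R : Type} (op : R → R → R) (ρ : R → R) : Prop :=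
  (∀ x, ρ (ρ x) = x) ∧ (∀ x y, ρ (op x y) = op (ρ x) y) ∧
    ∀ x y, op (op x (ρ y)) y = x

/-- table of a conjugacy class of 24 elements of order 4 in the Weyl group of type D4 -/
def tab : ℕ := 669008199131423489903580813181650625869853734662808826382293054233929725850649597377464377565783476738609784847896335156429251761365631584345922867740395435218363010562411910397450287473508184140945169877876213264221090764082482756751988346493952461922650286112294750725933118660978297099201281830631996262877635094373272259754836782851184206220162223229499397899915269456635074943251390257609348067249700211111527175884371785015601117271797649519697701190706862115849328675698920605193348021761249365218357425664397395938342199032464815343357828499918023231840024357883741430145755004355849537262454437664260911918876220934529134731209271434178026515806378366927173388118022724062430445163734797154234222801845029258458430610303307911248110120181830486631207958152435227202868841621780035865593958342422682531875406278905466212647640298072541698906169344476046825600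

/-- the operation -/
def op (x y : Fin 24) : Fin 24 := Fin.ofNat 24 (tab / 32 ^ (24 * x.val + y.val) % 32)

/-- inversion -/
def r1 (x : Fin 24) : Fin 24 := Fin.ofNat 24 (305596465158767180582447601821531429 / 32 ^ x.val % 32)

/-- inversion times the central element -/
def r2 (x : Fin 24) : Fin 24 := Fin.ofNat 24 (809072585808219573685288253843025329 / 32 ^ x.val % 32)

lemma g1 : IsGood op r1 := by
  refine ⟨?_, ?_, ?_⟩ <;> decide +kernel

lemma g2 : IsGood op r2 := by
  refine ⟨?_, ?_, ?_⟩ <;> decide +kernel

lemma back : ∀ x y, op (op x y) (r1 y) = x := by decide +kernel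

/-- right translation as a permutation -/
def tr (y : Fin 24) : Perm (Fin 24) where
  toFun x := op x y
  invFun x := op x (r1 y)
  left_inv x := back x y
  right_inv x := g1.2.2 x y

lemma reach : ∀ x, ∃ y y' y'', op (op (op 0 y) y') y'' = x := by decide +kernel

theorem result : ∃ (R : Type) (op : R → R → R), Finite R ∧ IsQuandle op ∧ Connected op ∧
    (¬ ∀ x y, op (op x y) y = x) ∧
    ∃ ρ₁ ρ₂ : R → R, IsGood op ρ₁ ∧ IsGood op ρ₂ ∧ ρ₁ ≠ ρ₂ := by
  refine ⟨Fin 24, op, inferInstance, ⟨by decide +kernel, fun y => (tr y).bijective,
    by decide +kernel⟩, ?_, by decide +kernel, r1, r2, g1, g2, ?_⟩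
  · have h : ∀ a, ∃ g ∈ Subgroup.closure {σ : Perm (Fin 24) | ∃ y, ∀ x, σ x = op x y},
        g 0 = a := by
      intro a
      obtain ⟨y, y', y'', e⟩ := reach a
      have m : ∀ y, tr y ∈ Subgroup.closure {σ : Perm (Fin 24) | ∃ y, ∀ x, σ x = op x y} :=
        fun y => Subgroup.subset_closure ⟨y, fun _ => rfl⟩
      exact ⟨tr y'' * tr y' * tr y, Subgroup.mul_mem _ (Subgroup.mul_mem _ (m _) (m _)) (m _), e⟩
    intro a b
    obtain ⟨g, hg, ea⟩ := h a
    obtain ⟨g', hg', eb⟩ := h b
    refine ⟨g' * g⁻¹, Subgroup.mul_mem _ hg' (Subgroup.inv_mem _ hg), ?_⟩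
    rw [← ea, ← eb]; simp
  · intro h
    have := congrFun h 0
    revert this
    decide +kernel

end Pool.Agent.Results.MP_f5f603_al.TwoGood
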